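import Pool.Agent.helper32.EB.Defs2
import Pool.Agent.helper29.BT.PA
import Pool.Agent.helper29.BT.GA

/-! # Project BT, module GE: Green function and truncated steps -/

open MeasureTheory ProbabilityTheory Filter Topology
open scoped ENNReal NNReal

namespace Pool.Agent.helper32.EB

theorem GE_cut_meas (h : ℝ) : Measurable (cut h) := by
  classical
  unfold cut
  refine Measurable.ite ?_ measurable_id measurable_const
  exact measurableSet_lt measurable_norm measurable_const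

theorem GE_far_meas (h : ℝ) : MeasurableSet {y : ℂ | h ≤ ‖y‖} :=
  measurableSet_le measurable_const measurable_norm

theorem GE_hk_meas (t : ℝ) : Measurable (hk t) := by
  unfold hk
  fun_prop

/-- the integral with respect to the truncated law, split into short and long steps -/
theorem GE_split {g : ℂ → ℝ≥0∞} (hg : Measurable g) (δ : ℝ≥0) (h : ℝ) (z : ℂ) :
    ∫⁻ y, g (z + y) ∂(stepLaw δ h) =
      ∫⁻ y in {y : ℂ | h ≤ ‖y‖}ᶜ, g (z + y) ∂(gauss2 δ) +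
        g z * gauss2 δ {y : ℂ | h ≤ ‖y‖} := by
  classical
  unfold stepLaw
  have hgz : Measurable (fun y : ℂ => g (z + y)) := hg.comp (measurable_const.add measurable_id)
  rw [lintegral_map hgz (GE_cut_meas h)]
  rw [← lintegral_add_compl _ (GE_far_meas h), add_comm]
  congr 1
  · apply setLIntegral_congr_fun (GE_far_meas h).compl
    intro y hy
    have hy2 : ‖y‖ < h := by
      simpa using hy
    simp only [cut, hy2, if_true]
  · rw [← setLIntegral_const]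
    apply setLIntegral_congr_fun (GE_far_meas h)
    intro y hy
    have hy2 : ¬ (‖y‖ < h) := by
      simpa using hy
    simp only [cut, hy2, if_false, add_zero]

theorem green_up_cut {κ C : ℝ} {g : ℂ → ℝ≥0∞} (hg : GreenFn κ C g) (δ : ℝ≥0) (hδ : 0 < δ)
    (hδ1 : δ ≤ 1) (h : ℝ) (hh : 0 < h) (z : ℂ) :
    ∫⁻ y, g (z + y) ∂(stepLaw δ h) ≤
      g z * (1 + ENNReal.ofReal (Real.exp (-h ^ 2 / (4 * δ)))) +
        ENNReal.ofReal (δ * (1 + κ)) := by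
  rw [GE_split hg.meas δ h z]
  have h1 : ∫⁻ y in {y : ℂ | h ≤ ‖y‖}ᶜ, g (z + y) ∂(gauss2 δ) ≤
      g z + ENNReal.ofReal (δ * (1 + κ)) :=
    (setLIntegral_le_lintegral _ _).trans (hg.up δ hδ1 z)
  have h2 := gauss2_tail δ hδ h hh.le
  calc ∫⁻ y in {y : ℂ | h ≤ ‖y‖}ᶜ, g (z + y) ∂(gauss2 δ) + g z * gauss2 δ {y : ℂ | h ≤ ‖y‖}
      ≤ (g z + ENNReal.ofReal (δ * (1 + κ))) +
          g z * ENNReal.ofReal (Real.exp (-h ^ 2 / (4 * δ))) :=
        add_le_add h1 (mul_le_mul_right h2 _)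
    _ = g z * (1 + ENNReal.ofReal (Real.exp (-h ^ 2 / (4 * δ)))) +
        ENNReal.ofReal (δ * (1 + κ)) := by ring

/-- comparison of the densities for `δ` and `2 δ` -/
theorem GE_hk_cmp (δ : ℝ≥0) (hδ : 0 < δ) (h : ℝ) (hh : 0 < h) (y : ℂ) (hy : h ≤ ‖y‖) :
    hk δ y ≤ ENNReal.ofReal (2 * Real.exp (-h ^ 2 / (8 * δ))) * hk ((2 * δ : ℝ≥0) : ℝ) y := by
  have hδ' : (0 : ℝ) < δ := by exact_mod_cast hδ
  have hπ := Real.pi_pos
  unfold hk
  rw [← ENNReal.ofReal_mul (by positivity)]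
  apply ENNReal.ofReal_le_ofReal
  push_cast
  have e1 : -‖y‖ ^ 2 / (4 * (δ : ℝ)) = -‖y‖ ^ 2 / (8 * δ) + -‖y‖ ^ 2 / (8 * δ) := by
    field_simp
    ring
  have e2 : -‖y‖ ^ 2 / (4 * (2 * (δ : ℝ))) = -‖y‖ ^ 2 / (8 * δ) := by
    congr 1
    ring
  rw [e1, e2, Real.exp_add]
  have h3 : Real.exp (-‖y‖ ^ 2 / (8 * δ)) ≤ Real.exp (-h ^ 2 / (8 * δ)) := by
    apply Real.exp_le_exp.mpr
    apply div_le_div_of_nonneg_right _ (by positivity)
    have : h ^ 2 ≤ ‖y‖ ^ 2 := pow_le_pow_left₀ hh.le hy 2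
    linarith
  have h4 : 0 < Real.exp (-‖y‖ ^ 2 / (8 * δ)) := Real.exp_pos _
  have h5 : 1 / (4 * Real.pi * (δ : ℝ)) = 2 * (1 / (4 * Real.pi * (2 * δ))) := by
    field_simp
  rw [h5]
  have h6 : (0 : ℝ) < 1 / (4 * Real.pi * (2 * δ)) := by positivity
  calc 2 * (1 / (4 * Real.pi * (2 * (δ : ℝ)))) *
        (Real.exp (-‖y‖ ^ 2 / (8 * δ)) * Real.exp (-‖y‖ ^ 2 / (8 * δ)))
      = 2 * Real.exp (-‖y‖ ^ 2 / (8 * δ)) *
          (1 / (4 * Real.pi * (2 * (δ : ℝ))) * Real.exp (-‖y‖ ^ 2 / (8 * δ))) := by ring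
    _ ≤ 2 * Real.exp (-h ^ 2 / (8 * δ)) *
          (1 / (4 * Real.pi * (2 * (δ : ℝ))) * Real.exp (-‖y‖ ^ 2 / (8 * δ))) := by
        apply mul_le_mul_of_nonneg_right _ (by positivity)
        linarith

theorem GE_far {κ C : ℝ} {g : ℂ → ℝ≥0∞} (hg : GreenFn κ C g) (δ : ℝ≥0) (hδ : 0 < δ)
    (hδ1 : 2 * δ ≤ 1) (h : ℝ) (hh : 0 < h) (z : ℂ) :
    ∫⁻ y in {y : ℂ | h ≤ ‖y‖}, g (z + y) ∂(gauss2 δ) ≤
      ENNReal.ofReal (2 * Real.exp (-h ^ 2 / (8 * δ))) *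
        (g z + ENNReal.ofReal (2 * δ * (1 + κ))) := by
  have hgz : Measurable (fun y : ℂ => g (z + y)) :=
    hg.meas.comp (measurable_const.add measurable_id)
  have h1 : ∫⁻ y in {y : ℂ | h ≤ ‖y‖}, g (z + y) ∂(gauss2 δ) =
      ∫⁻ y in {y : ℂ | h ≤ ‖y‖}, hk δ y * g (z + y) := by
    rw [gauss2_density δ hδ]
    rw [setLIntegral_withDensity_eq_setLIntegral_mul _ (GE_hk_meas _) hgz (GE_far_meas h)]
    rfl
  have h2 : ∫⁻ y, g (z + y) ∂(gauss2 (2 * δ)) =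
      ∫⁻ y, hk ((2 * δ : ℝ≥0) : ℝ) y * g (z + y) := by
    rw [gauss2_density (2 * δ) (by positivity)]
    rw [lintegral_withDensity_eq_lintegral_mul _ (GE_hk_meas _) hgz]
    rfl
  have h3 := hg.up (2 * δ) hδ1 z
  rw [h2] at h3
  rw [h1]
  calc ∫⁻ y in {y : ℂ | h ≤ ‖y‖}, hk δ y * g (z + y)
      ≤ ∫⁻ y in {y : ℂ | h ≤ ‖y‖}, ENNReal.ofReal (2 * Real.exp (-h ^ 2 / (8 * δ))) *
          (hk ((2 * δ : ℝ≥0) : ℝ) y * g (z + y)) := by
        apply setLIntegral_mono' (GE_far_meas h)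
        intro y hy
        rw [← mul_assoc]
        exact mul_le_mul_left (GE_hk_cmp δ hδ h hh y hy) _
    _ ≤ ∫⁻ y, ENNReal.ofReal (2 * Real.exp (-h ^ 2 / (8 * δ))) *
          (hk ((2 * δ : ℝ≥0) : ℝ) y * g (z + y)) := setLIntegral_le_lintegral _ _
    _ = ENNReal.ofReal (2 * Real.exp (-h ^ 2 / (8 * δ))) *
          ∫⁻ y, hk ((2 * δ : ℝ≥0) : ℝ) y * g (z + y) :=
        lintegral_const_mul _ ((GE_hk_meas _).mul hgz)
    _ ≤ ENNReal.ofReal (2 * Real.exp (-h ^ 2 / (8 * δ))) *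
        (g z + ENNReal.ofReal (2 * δ * (1 + κ))) := by
        apply mul_le_mul_right
        refine h3.trans (le_of_eq ?_)
        push_cast
        rfl

theorem green_low_cut {κ C : ℝ} {g : ℂ → ℝ≥0∞} (hg : GreenFn κ C g) (δ : ℝ≥0) (hδ : 0 < δ)
    (hδ1 : 2 * δ ≤ 1) (h : ℝ) (hh : 0 < h) (z : ℂ) (hz : (δ : ℝ) ≤ ‖disp z‖ ^ 2) :
    g z + ENNReal.ofReal (δ * (1 - κ)) ≤ ∫⁻ y, g (z + y) ∂(stepLaw δ h) +
      ENNReal.ofReal (C * Real.exp (-‖disp z‖ ^ 2 / (8 * δ))) +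
      ENNReal.ofReal (2 * Real.exp (-h ^ 2 / (8 * δ))) *
        (g z + ENNReal.ofReal (2 * δ * (1 + κ))) := by
  have hδ1' : δ ≤ 1 := by
    refine le_trans ?_ hδ1
    rw [two_mul]
    exact le_self_add
  have h1 := hg.low δ hδ hδ1' z hz
  have h2 := GE_far hg δ hδ hδ1 h hh z
  have h3 : ∫⁻ y, g (z + y) ∂(gauss2 δ) ≤ ∫⁻ y, g (z + y) ∂(stepLaw δ h) +
      ENNReal.ofReal (2 * Real.exp (-h ^ 2 / (8 * δ))) *
        (g z + ENNReal.ofReal (2 * δ * (1 + κ))) := by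
    rw [← lintegral_add_compl _ (GE_far_meas h), add_comm]
    apply add_le_add _ h2
    rw [GE_split hg.meas δ h z]
    exact le_self_add
  calc g z + ENNReal.ofReal (δ * (1 - κ))
      ≤ ∫⁻ y, g (z + y) ∂(gauss2 δ) +
          ENNReal.ofReal (C * Real.exp (-‖disp z‖ ^ 2 / (8 * δ))) := h1
    _ ≤ (∫⁻ y, g (z + y) ∂(stepLaw δ h) +
          ENNReal.ofReal (2 * Real.exp (-h ^ 2 / (8 * δ))) *
            (g z + ENNReal.ofReal (2 * δ * (1 + κ)))) +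
          ENNReal.ofReal (C * Real.exp (-‖disp z‖ ^ 2 / (8 * δ))) := by
        gcongr
    _ = _ := by ring

end Pool.Agent.helper32.EB
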