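import Pool.Agent.helper32.EB.Defs2
import Pool.Agent.helper97.BT.NA
import Pool.Agent.helper29.BT.KA
import Pool.Agent.helper97.BT.GD

/-! # Project BT, module KB: the number of pieces -/

open MeasureTheory ProbabilityTheory Filter Topology
open scoped ENNReal NNReal

namespace Pool.Agent.helper32.EB

/-- the real inequality for the exponent; `A = ζ L / (2 π)` -/
theorem KB_exp (γ ζ L C d : ℝ) (hγ : 0 < γ) (hζ : 0 < ζ) (hd : 0 < d) (hd4 : d ≤ 1 / 4)
    (hL : 1 ≤ L) (hC : 0 < C) (hζγ : ζ ≤ γ * d ^ 2 / 20000)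
    (h1 : 40 * Real.pi * C ≤ d * (ζ * L)) (h2 : 2 * Real.pi * (d / 1000) ≤ ζ * L)
    (N : ℕ) (hN : (N : ℝ) * Real.exp (-3 * L) ≤ γ * L ^ 2 / Real.pi + 1)
    (n : ℕ) (hn : 2 * (γ * (1 + d)) * L / ζ ≤ n) (χ : ℝ) (hχ0 : 0 < χ)
    (hχ : 1 - χ = (ζ * L / (2 * Real.pi) - 2 * C) /
      ((1 + d / 10) / (2 * Real.pi * (d / 1000) / (ζ * L)) + 100 * (ζ * L / (2 * Real.pi)) - C)) :
    (1 + 2 * Real.pi * (d / 1000) / (ζ * L) * Real.exp (-3 * L)) ^ N * χ ^ n ≤
      Real.exp (-10 * L) := by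
  have hπ := Real.pi_pos
  have hζL : 0 < ζ * L := by positivity
  set θ : ℝ := 2 * Real.pi * (d / 1000) / (ζ * L) with hθdef
  have hθ : 0 < θ := by positivity
  -- first factor
  have hf1 : (1 + θ * Real.exp (-3 * L)) ^ N ≤ Real.exp (θ * (γ * L ^ 2 / Real.pi + 1)) := by
    calc (1 + θ * Real.exp (-3 * L)) ^ N ≤ (Real.exp (θ * Real.exp (-3 * L))) ^ N := by
          apply pow_le_pow_left₀ (by positivity)
          have := Real.add_one_le_exp (θ * Real.exp (-3 * L))
          linarith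
      _ = Real.exp (N * (θ * Real.exp (-3 * L))) := by
          rw [← Real.exp_nat_mul]
      _ ≤ Real.exp (θ * (γ * L ^ 2 / Real.pi + 1)) := by
          apply Real.exp_le_exp.mpr
          calc (N : ℝ) * (θ * Real.exp (-3 * L)) = θ * ((N : ℝ) * Real.exp (-3 * L)) := by ring
            _ ≤ θ * (γ * L ^ 2 / Real.pi + 1) := mul_le_mul_of_nonneg_left hN hθ.le
  -- second factor
  have hf2 : χ ^ n ≤ Real.exp (-(n * (1 - χ))) := by
    calc χ ^ n ≤ (Real.exp (-(1 - χ))) ^ n := by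
          apply pow_le_pow_left₀ hχ0.le
          have := Real.add_one_le_exp (-(1 - χ))
          linarith
      _ = Real.exp (n * (-(1 - χ))) := by
          rw [← Real.exp_nat_mul]
      _ = Real.exp (-(n * (1 - χ))) := by
          congr 1
          ring
  have hA : 0 < ζ * L / (2 * Real.pi) := by positivity
  -- lower bound for 1 - χ
  have hden : (1 + d / 10) / θ + 100 * (ζ * L / (2 * Real.pi)) =
      ζ * L / (2 * Real.pi) * (1000 / d) * (1 + d / 5) := by
    rw [hθdef]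
    field_simp
    ring
  have h3 : 2 * C ≤ d / 10 * (ζ * L / (2 * Real.pi)) := by
    rw [div_mul_div_comm, le_div_iff₀ (by positivity)]
    linarith
  have hDpos : 0 < (1 + d / 10) / θ + 100 * (ζ * L / (2 * Real.pi)) - C := by
    have : 0 < (1 + d / 10) / θ := by positivity
    nlinarith
  have h1χ : d / 1000 * (1 - d / 10) / (1 + d / 5) ≤ 1 - χ := by
    rw [hχ]
    have hnum : ζ * L / (2 * Real.pi) * (1 - d / 10) ≤ ζ * L / (2 * Real.pi) - 2 * C := by
      linarith
    have hnum0 : 0 ≤ ζ * L / (2 * Real.pi) * (1 - d / 10) := by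
      apply mul_nonneg hA.le
      linarith
    calc d / 1000 * (1 - d / 10) / (1 + d / 5)
        = ζ * L / (2 * Real.pi) * (1 - d / 10) /
            (ζ * L / (2 * Real.pi) * (1000 / d) * (1 + d / 5)) := by
          field_simp
      _ = ζ * L / (2 * Real.pi) * (1 - d / 10) /
            ((1 + d / 10) / θ + 100 * (ζ * L / (2 * Real.pi))) := by rw [hden]
      _ ≤ ζ * L / (2 * Real.pi) * (1 - d / 10) /
            ((1 + d / 10) / θ + 100 * (ζ * L / (2 * Real.pi)) - C) := by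
          apply div_le_div_of_nonneg_left hnum0 hDpos
          linarith
      _ ≤ (ζ * L / (2 * Real.pi) - 2 * C) /
            ((1 + d / 10) / θ + 100 * (ζ * L / (2 * Real.pi)) - C) :=
          div_le_div_of_nonneg_right hnum hDpos.le
  have h1χ0 : 0 ≤ 1 - χ := by
    refine le_trans ?_ h1χ
    have : 0 ≤ 1 - d / 10 := by linarith
    positivity
  have hnχ : 2 * (γ * (1 + d)) * L / ζ * (d / 1000 * (1 - d / 10) / (1 + d / 5)) ≤
      n * (1 - χ) := by
    apply mul_le_mul hn h1χ _ (by positivity)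
    have : 0 ≤ 1 - d / 10 := by linarith
    positivity
  -- (1 + d) (1 - d / 10) ≥ (1 + d / 5) (1 + 16 d / 25)
  have h4 : 1 + 16 / 25 * d ≤ (1 + d) * (1 - d / 10) / (1 + d / 5) := by
    rw [le_div_iff₀ (by positivity)]
    nlinarith
  have h5 : 2 * γ * L / ζ * (d / 1000) * (1 + 16 / 25 * d) ≤ n * (1 - χ) := by
    refine le_trans ?_ hnχ
    calc 2 * γ * L / ζ * (d / 1000) * (1 + 16 / 25 * d)
        ≤ 2 * γ * L / ζ * (d / 1000) * ((1 + d) * (1 - d / 10) / (1 + d / 5)) :=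
          mul_le_mul_of_nonneg_left h4 (by positivity)
      _ = 2 * (γ * (1 + d)) * L / ζ * (d / 1000 * (1 - d / 10) / (1 + d / 5)) := by ring
  have h6 : θ * (γ * L ^ 2 / Real.pi + 1) = 2 * γ * L / ζ * (d / 1000) + θ := by
    rw [hθdef]
    field_simp
  have hθ1 : θ ≤ 1 := by
    rw [hθdef, div_le_one hζL]
    exact h2
  have h7 : 11 * L ≤ 2 * γ * L / ζ * (d / 1000) * (16 / 25 * d) := by
    have e1 : 2 * γ * L / ζ * (d / 1000) * (16 / 25 * d) =
        (32 / 25000 * (γ * d ^ 2)) * L / ζ := by ring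
    rw [e1, le_div_iff₀ hζ]
    nlinarith
  calc (1 + θ * Real.exp (-3 * L)) ^ N * χ ^ n
      ≤ Real.exp (θ * (γ * L ^ 2 / Real.pi + 1)) * Real.exp (-(n * (1 - χ))) := by
        apply mul_le_mul hf1 hf2 (by positivity) (Real.exp_pos _).le
    _ = Real.exp (θ * (γ * L ^ 2 / Real.pi + 1) + -(n * (1 - χ))) := by
        rw [← Real.exp_add]
    _ ≤ Real.exp (-10 * L) := by
        apply Real.exp_le_exp.mpr
        rw [h6]
        linarith

/-- the truncation error is small -/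
theorem KB_trunc (c : ℝ) (hc : 0 < c) : ∀ᶠ L : ℝ in atTop,
    Real.exp (-(ph L) ^ 2 / (4 * (pδ L : ℝ))) ≤ c / L * Real.exp (-3 * L) := by
  have e1 : Tendsto (fun L : ℝ => Real.exp (L / 2) / (L / 2)) atTop atTop := by
    have h1 : Tendsto (fun x : ℝ => Real.exp x / x ^ 1) atTop atTop :=
      Real.tendsto_exp_div_pow_atTop 1
    have h2 : Tendsto (fun L : ℝ => L / 2) atTop atTop :=
      tendsto_id.atTop_div_const (by norm_num)
    have h3 := h1.comp h2
    simpa [Function.comp_def] using h3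
  have e2 : Tendsto (fun L : ℝ => Real.exp (2 * L) / L) atTop atTop := by
    have h1 : Tendsto (fun x : ℝ => Real.exp x / x ^ 1) atTop atTop :=
      Real.tendsto_exp_div_pow_atTop 1
    have h2 : Tendsto (fun L : ℝ => Real.exp L / L) atTop atTop := by
      simpa using h1
    refine tendsto_atTop_mono' atTop ?_ h2
    filter_upwards [eventually_gt_atTop (0 : ℝ)] with L hL
    apply div_le_div_of_nonneg_right _ hL.le
    apply Real.exp_le_exp.mpr
    linarith
  filter_upwards [e1.eventually_ge_atTop 40, e2.eventually_ge_atTop (1 / c),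
    eventually_gt_atTop (0 : ℝ)] with L h1 h2 hL
  have hδ : (pδ L : ℝ) = Real.exp (-3 * L) := by
    unfold pδ
    rw [Real.coe_toNNReal _ (Real.exp_pos _).le]
  have hh : ph L ^ 2 = Real.exp (-3 * L) * Real.exp (L / 2) := by
    unfold ph
    rw [sq, ← Real.exp_add, ← Real.exp_add]
    congr 1
    ring
  have hq : -(ph L) ^ 2 / (4 * (pδ L : ℝ)) = -(Real.exp (L / 2) / 4) := by
    rw [hδ, hh]
    have := Real.exp_pos (-3 * L)
    field_simp
  rw [hq]
  rw [le_div_iff₀ (by positivity)] at h1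
  have h3 : Real.exp (-(Real.exp (L / 2) / 4)) ≤ Real.exp (-5 * L) := by
    apply Real.exp_le_exp.mpr
    linarith
  refine h3.trans ?_
  have h4 : Real.exp (-5 * L) = Real.exp (-2 * L) * Real.exp (-3 * L) := by
    rw [← Real.exp_add]
    congr 1
    ring
  rw [h4]
  apply mul_le_mul_of_nonneg_right _ (Real.exp_pos _).le
  rw [div_le_div_iff₀ hc hL] at h2
  rw [le_div_iff₀ hL]
  have h5 : Real.exp (-2 * L) * Real.exp (2 * L) = 1 := by
    rw [← Real.exp_add]
    simp
  have h6 : 0 < Real.exp (-2 * L) := Real.exp_pos _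
  calc Real.exp (-2 * L) * L = Real.exp (-2 * L) * (1 * L) := by ring
    _ ≤ Real.exp (-2 * L) * (Real.exp (2 * L) * c) := mul_le_mul_of_nonneg_left h2 h6.le
    _ = (Real.exp (-2 * L) * Real.exp (2 * L)) * c := by ring
    _ = c := by rw [h5, one_mul]

theorem dead_small {Ω : Type*} [MeasurableSpace Ω] {P : Measure Ω} [IsProbabilityMeasure P]
    (γ ζ : ℝ) (hγ : 0 < γ) (hγ1 : γ < 1) (hζ : 0 < ζ) (hζ' : ζ ≤ 1 / 2000)
    (hζγ : ζ ≤ γ * ((1 - γ) / 4) ^ 2 / 20000) (K : ℕ) (hK : 6 ≤ K) :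
    ∀ᶠ L : ℝ in atTop, ∀ Y : ℕ → Ω → ℂ, IID P (stepLaw (pδ L) (ph L)) Y → ∀ o z0 : ℂ,
      (geoL ζ K L).R' ≤ ‖disp (z0 - o)‖ → ∀ N : ℕ,
      (N : ℝ) * Real.exp (-3 * L) ≤ γ * L ^ 2 / Real.pi + 1 →
      P {ω | rstate (geoL ζ K L) o (nL ζ (γ * (1 + (1 - γ) / 4)) L)
        (walk z0 (fun k => Y k ω)) N = none} ≤ ENNReal.ofReal (Real.exp (-10 * L)) := by
  set d : ℝ := (1 - γ) / 4 with hddef
  have hd : 0 < d := by
    rw [hddef]
    linarith
  have hd4 : d ≤ 1 / 4 := by
    rw [hddef]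
    linarith
  obtain ⟨C, g, hC, hg⟩ := greenFn_exists (d / 10) (by positivity) (by linarith)
  have hπ := Real.pi_pos
  have hb1 : Tendsto (fun L : ℝ => d * (ζ * L)) atTop atTop :=
    (tendsto_id.const_mul_atTop hζ).const_mul_atTop hd
  have hb2 : Tendsto (fun L : ℝ => ζ * L) atTop atTop := tendsto_id.const_mul_atTop hζ
  filter_upwards [geoL_ok ζ hζ hζ' K hK, KB_trunc (2 * Real.pi * (d / 1000) / ζ) (by positivity),
    hb1.eventually_ge_atTop (40 * Real.pi * C), hb2.eventually_ge_atTop (2 * Real.pi * (d / 1000)),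
    eventually_ge_atTop (1 : ℝ)] with L hG hT h1 h2 hL
  intro Y hY o z0 hz0 N hN
  have hζL : 0 < ζ * L := by positivity
  have hδ : (pδ L : ℝ) = Real.exp (-3 * L) := by
    unfold pδ
    rw [Real.coe_toNNReal _ (Real.exp_pos _).le]
  have hδpos : 0 < pδ L := by
    have : (0 : ℝ) < pδ L := by
      rw [hδ]
      exact Real.exp_pos _
    exact_mod_cast this
  have hδ1 : pδ L ≤ 1 := by
    have : (pδ L : ℝ) ≤ 1 := by
      rw [hδ]
      apply Real.exp_le_one_iff.mpr
      linarith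
    exact_mod_cast this
  have hr : Real.log (1 / (geoL ζ K L).r) = 100 * ζ * L := by
    show Real.log (1 / Real.exp (-100 * ζ * L)) = _
    rw [one_div, Real.log_inv, Real.log_exp]
    ring
  have hR' : Real.log (1 / (geoL ζ K L).R') = 99 * ζ * L := by
    show Real.log (1 / Real.exp (-99 * ζ * L)) = _
    rw [one_div, Real.log_inv, Real.log_exp]
    ring
  set θ : ℝ := 2 * Real.pi * (d / 1000) / (ζ * L) with hθdef
  have hθ : 0 < θ := by positivity
  have hA : 0 < ζ * L / (2 * Real.pi) := by positivity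
  have h3 : 2 * C ≤ d / 10 * (ζ * L / (2 * Real.pi)) := by
    rw [div_mul_div_comm, le_div_iff₀ (by positivity)]
    linarith
  have hden : 0 < (1 + d / 10) / θ + 100 * (ζ * L / (2 * Real.pi)) - C := by
    have : 0 < (1 + d / 10) / θ := by positivity
    nlinarith
  have hlogr : 1 / (2 * Real.pi) * Real.log (1 / (geoL ζ K L).r) =
      100 * (ζ * L / (2 * Real.pi)) := by
    rw [hr]
    ring
  have hlogR : 1 / (2 * Real.pi) * Real.log (1 / (geoL ζ K L).R') =
      99 * (ζ * L / (2 * Real.pi)) := by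
    rw [hR']
    ring
  set χ : ℝ := ((1 + d / 10) / θ + 99 * (ζ * L / (2 * Real.pi)) + C) /
    ((1 + d / 10) / θ + 100 * (ζ * L / (2 * Real.pi)) - C) with hχdef
  have hχ0 : 0 < χ := by
    rw [hχdef]
    have : 0 < (1 + d / 10) / θ := by positivity
    positivity
  have h1χ : 1 - χ = (ζ * L / (2 * Real.pi) - 2 * C) /
      ((1 + d / 10) / θ + 100 * (ζ * L / (2 * Real.pi)) - C) := by
    rw [hχdef, eq_div_iff hden.ne', sub_mul, div_mul_cancel₀ _ hden.ne']
    ring
  have hχ1 : χ ≤ 1 := by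
    have : 0 ≤ 1 - χ := by
      rw [h1χ]
      apply div_nonneg _ hden.le
      nlinarith
    linarith
  have hbound := dead_bound (geoL ζ K L) hG hg (by positivity) (pδ L) hδpos hδ1 θ χ hθ (by
      refine hT.trans (le_of_eq ?_)
      rw [hδ, hθdef]
      field_simp) hχ0 hχ1 (by
      rw [hlogr]
      exact hden) (by
      rw [hlogR]
      positivity) (by
      rw [hlogr, hlogR, hχdef, div_mul_cancel₀ _ hden.ne']) hY o z0 hz0
      (nL ζ (γ * (1 + d)) L) N
  refine hbound.trans ?_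
  apply ENNReal.ofReal_le_ofReal
  rw [hδ]
  exact KB_exp γ ζ L C d hγ hζ hd hd4 hL hC hζγ h1 h2 N hN (nL ζ (γ * (1 + d)) L)
    (Nat.le_ceil _) χ hχ0 h1χ

end Pool.Agent.helper32.EB
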