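import Pool.Agent.helper32.EB.Defs2
import Pool.Agent.helper21.BT.CG
import Pool.Agent.helper97.BT.NA
import Pool.Agent.helper6.BT.NB
import Pool.Agent.helper92.BT.ND

/-! # Project BT, module NE: value of one region -/

open MeasureTheory ProbabilityTheory Filter Topology
open scoped ENNReal NNReal

namespace Pool.Agent.helper32.EB

/-- the final computation -/
theorem NE_calc (V : ℝ≥0∞) (J c S e : ℝ) (hJ : 0 < J) (hc : 0 < c) (he : 0 < e) (he1 : e ≤ 1)
    (hS : S ≤ J ^ 2 * c ^ 2 * e⁻¹)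
    (h : V + ENNReal.ofReal (2 * (e / (2 * J * c)) * J * c) ≤
      1 + ENNReal.ofReal (2 * (e / (2 * J * c)) * J * (c / 2) + (e / (2 * J * c)) ^ 2 * S)) :
    V ≤ ENNReal.ofReal (1 - e / 4) := by
  have h1 : 2 * (e / (2 * J * c)) * J * c = e := by
    field_simp
  have h2 : 2 * (e / (2 * J * c)) * J * (c / 2) = e / 2 := by
    field_simp
  have h3 : (e / (2 * J * c)) ^ 2 * S ≤ e / 4 := by
    calc (e / (2 * J * c)) ^ 2 * S ≤ (e / (2 * J * c)) ^ 2 * (J ^ 2 * c ^ 2 * e⁻¹) := by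
          apply mul_le_mul_of_nonneg_left hS (by positivity)
      _ = e / 4 := by
          field_simp
          ring
  rw [h1, h2] at h
  have h4 : V + ENNReal.ofReal e ≤ ENNReal.ofReal (1 - e / 4) + ENNReal.ofReal e := by
    refine h.trans ?_
    rw [← ENNReal.ofReal_one, ← ENNReal.ofReal_add (by linarith) he.le]
    calc ENNReal.ofReal 1 + ENNReal.ofReal (e / 2 + (e / (2 * J * c)) ^ 2 * S)
        ≤ ENNReal.ofReal 1 + ENNReal.ofReal (e / 2 + e / 4) := by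
          gcongr
      _ = ENNReal.ofReal (1 + (e / 2 + e / 4)) := by
          rw [ENNReal.ofReal_add zero_le_one (by positivity)]
      _ = ENNReal.ofReal (1 - e / 4 + e) := by
          congr 1
          ring
  exact (ENNReal.add_le_add_iff_right ENNReal.ofReal_ne_top).mp h4

theorem NE_J_pos (ζ : ℝ) (K : ℕ) (L : ℝ) : 0 < ((geoL ζ K L).J : ℝ) := by
  have : 0 < (geoL ζ K L).J := by
    show 0 < (2 * qL ζ L + 1) * (2 * qL ζ L + 1)
    positivity
  exact_mod_cast this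

theorem V_small (ζ γA : ℝ) (hζ : 0 < ζ) (hζ' : ζ ≤ 1 / 2000) (hγ : 0 < γA)
    (hγζ : γA + 300 * ζ ≤ 1) : ∃ K : ℕ, 6 ≤ K ∧ ∀ᶠ L : ℝ in atTop, (geoL ζ K L).OK ∧
      ∀ ν, RotStep ν (ph L) → Vv (geoL ζ K L) ν (nL ζ γA L) Finset.univ ≤
        ENNReal.ofReal (1 - Real.exp (-10 * ζ * L)) := by
  classical
  obtain ⟨K, hK⟩ : ∃ K : ℕ, 100 / ζ ≤ (K : ℝ) := exists_nat_ge (100 / ζ)
  have hK6 : 6 ≤ K := by
    have h1 : (6 : ℝ) ≤ 100 / ζ := by
      rw [le_div_iff₀ hζ]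
      linarith
    exact_mod_cast h1.trans hK
  refine ⟨K, hK6, ?_⟩
  obtain ⟨uH, uL, herr⟩ := err_small ζ γA hζ hζ' hγ K hK6
  have hcm := (lim_cm ζ hζ hζ' K hK6).1
  have hlim : 0 < 1 - ζ / (1 - 99 * ζ) := by
    have h1 : 0 < 1 - 99 * ζ := by linarith
    have h2 : ζ / (1 - 99 * ζ) < 1 := by
      rw [div_lt_one h1]
      linarith
    linarith
  have hcpos : ∀ᶠ L : ℝ in atTop, 0 < cmx (geoL ζ K L) := hcm.eventually (lt_mem_nhds hlim)
  have hbig : ∀ᶠ L : ℝ in atTop, 4 ≤ Real.exp (ζ * L) := by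
    have h1 : Tendsto (fun L : ℝ => Real.exp (ζ * L)) atTop atTop :=
      Real.tendsto_exp_atTop.comp (tendsto_id.const_mul_atTop hζ)
    exact h1.eventually_ge_atTop 4
  filter_upwards [geoL_ok ζ hζ hζ' K hK6, herr, pair_sum ζ γA hζ hζ' hγ hγζ K hK, hcpos, hbig,
    eventually_ge_atTop (0 : ℝ)] with L hG hE hP hc hb hL0
  refine ⟨hG, ?_⟩
  intro ν hν
  obtain ⟨hE1, hE2, hE3⟩ := hE
  obtain ⟨BB, hB1, hB2⟩ := hP
  have hJ := NE_J_pos ζ K L
  have he : 0 < Real.exp (-9 * ζ * L) := Real.exp_pos _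
  have hcn : 0 < cmx (geoL ζ K L) ^ (nL ζ γA L) := pow_pos hc _
  have huP : ∀ k : ℕ, 0 < (if k < K then ((K - k : ℝ) / (K - k + 1)) else 1 / 2) ∧
      (if k < K then ((K - k : ℝ) / (K - k + 1)) else 1 / 2) < 1 := by
    intro k
    by_cases hk : k < K
    · simp only [hk, if_true]
      have hk' : (k : ℝ) < K := by exact_mod_cast hk
      have h1 : 0 < (K - k : ℝ) := by linarith
      have h2 : 0 < (K - k + 1 : ℝ) := by linarith
      refine ⟨div_pos h1 h2, ?_⟩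
      rw [div_lt_one h2]
      linarith
    · simp only [hk, if_false]
      norm_num
  have hSM := second_moment (geoL ζ K L) hG hν (nL ζ γA L)
    (fun k => (1 - ζ) * DL ζ γA K k * L) (fun k => (1 + ζ) * DL ζ γA K k * L) uH uL
    (fun k => if k < K then ((K - k : ℝ) / (K - k + 1)) else 1 / 2) hE1 hE2 huP
    (cmx (geoL ζ K L) ^ (nL ζ γA L) / 2) hE3 BB (by
      intro i j
      rcases hB1 i j with h | ⟨l, h1, h2, h3, h4⟩ | ⟨k, h1, h2, h3, h4, h5⟩
      · exact Or.inl h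
      · exact Or.inr (Or.inl ⟨l, h1, h2, h3, h4⟩)
      · refine Or.inr (Or.inr ⟨k, h1, h2, h3, h4, ?_⟩)
        have hk : k < K := by omega
        simp only [hk, if_true]
        exact h5)
    (Real.exp (-9 * ζ * L) / (2 * ((geoL ζ K L).J : ℝ) * cmx (geoL ζ K L) ^ (nL ζ γA L)))
    (by positivity)
  have he1 : Real.exp (-9 * ζ * L) ≤ 1 := by
    apply Real.exp_le_one_iff.mpr
    have : 0 ≤ ζ * L := by positivity
    linarith
  have hinv : (Real.exp (-9 * ζ * L))⁻¹ = Real.exp (9 * ζ * L) := by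
    rw [← Real.exp_neg]
    congr 1
    ring
  have hfin := NE_calc _ _ _ _ _ hJ hcn he he1 (by rw [hinv]; exact hB2) hSM
  refine hfin.trans ?_
  apply ENNReal.ofReal_le_ofReal
  have h1 : Real.exp (-9 * ζ * L) = Real.exp (-10 * ζ * L) * Real.exp (ζ * L) := by
    rw [← Real.exp_add]
    congr 1
    ring
  have h2 : 0 < Real.exp (-10 * ζ * L) := Real.exp_pos _
  have h3 : Real.exp (-10 * ζ * L) * 4 ≤ Real.exp (-10 * ζ * L) * Real.exp (ζ * L) :=
    mul_le_mul_of_nonneg_left hb h2.le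
  rw [h1]
  linarith

end Pool.Agent.helper32.EB
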