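import Pool.Agent.helper32.EB.Defs2

/-! # Project BT, module VE: all small balls visited -/

open MeasureTheory ProbabilityTheory Filter Topology
open scoped ENNReal NNReal

namespace Pool.Agent.helper32.EB

/-- the hit radius is at most a quarter of the inner radius -/
theorem VE_rho (G : Geo) (hG : G.OK) : G.ρ ≤ G.r / 4 ∧ 0 < G.ρ := by
  have hpos : 0 < G.ρ := by
    have h1 := hG.hpos
    have h2 := hG.hρ
    linarith
  have key : ∀ i : ℕ, i ≤ G.K → G.ρ ≤ G.R (G.K - i) := by
    intro i
    induction i with
    | zero => intro _; simp [hG.RK]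
    | succ i ih =>
      intro hi
      have h1 := ih (by omega)
      have h2 := hG.dec (G.K - (i + 1)) (by omega)
      have h3 : G.K - (i + 1) + 1 = G.K - i := by omega
      rw [h3] at h2
      linarith
  have hK := hG.K6
  have h1 := key (G.K - 1) (by omega)
  have h2 : G.K - (G.K - 1) = 1 := by omega
  rw [h2] at h1
  have h3 := hG.dec 0 (by omega)
  rw [hG.R0] at h3
  have h4 : (0 : ℕ) + 1 = 1 := rfl
  rw [h4] at h3
  exact ⟨by linarith, hpos⟩

/-- a hit happens inside the inner disc -/
theorem VE_hit (G : Geo) (hG : G.OK) (w : ℂ) (j : Fin G.J) (hw : ‖w - G.x j‖ ≤ G.ρ) :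
    ‖w‖ ≤ G.r ∧ ‖w‖ < G.R' ∧ ¬ (G.r < ‖w‖) := by
  obtain ⟨h1, h2⟩ := VE_rho G hG
  have h3 := hG.xs j
  have h4 : ‖w‖ ≤ ‖w - G.x j‖ + ‖G.x j‖ := by
    have := norm_add_le (w - G.x j) (G.x j)
    simpa using this
  have h5 := hG.big
  have h6 : ‖w‖ ≤ G.r := by linarith
  exact ⟨h6, by linarith, not_lt.mpr h6⟩

theorem VE_upd_sub (G : Geo) (z : ℂ) (U : Finset (Fin G.J)) : upd G z U ⊆ U := by
  classical
  intro j hj
  unfold upd at hj
  exact (Finset.mem_filter.mp hj).1

theorem VE_upd_hit (G : Geo) (z : ℂ) (U : Finset (Fin G.J)) (j : Fin G.J)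
    (h : ‖z - G.x j‖ ≤ G.ρ) : j ∉ upd G z U := by
  classical
  intro hj
  unfold upd at hj
  exact absurd (Finset.mem_filter.mp hj).2 (not_lt.mpr h)

/-- one step: the new set is a subset of the old one and contains no ball hit now -/
theorem VE_step (G : Geo) (hG : G.OK) (w : ℂ) (q : RS G.J) (b : Bool) (m : ℕ)
    (U : Finset (Fin G.J)) (hq : rstep G w q = some (b, m, U)) :
    ∃ b' m' U', q = some (b', m', U') ∧ U ⊆ U' ∧ ∀ j, ‖w - G.x j‖ ≤ G.ρ → j ∉ U := by
  match q, hq with
  | none, hq => exact absurd hq (by simp [rstep])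
  | some (false, 0, U'), hq =>
    refine ⟨false, 0, U', rfl, ?_⟩
    simp only [rstep] at hq
    split_ifs at hq with h
    have h1 : (false, 0, U') = (b, m, U) := Option.some.inj hq
    have h2 : U' = U := by
      have := congrArg (fun p => p.2.2) h1
      simpa using this
    subst h2
    refine ⟨subset_rfl, ?_⟩
    intro j hj
    exact absurd (VE_hit G hG w j hj).1 h
  | some (false, m' + 1, U'), hq =>
    refine ⟨false, m' + 1, U', rfl, ?_⟩
    simp only [rstep] at hq
    split_ifs at hq with h
    · have h1 : (true, m', upd G w U') = (b, m, U) := Option.some.inj hq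
      have h2 : upd G w U' = U := by
        have := congrArg (fun p => p.2.2) h1
        simpa using this
      subst h2
      exact ⟨VE_upd_sub G w U', fun j hj => VE_upd_hit G w U' j hj⟩
    · have h1 : (false, m' + 1, U') = (b, m, U) := Option.some.inj hq
      have h2 : U' = U := by
        have := congrArg (fun p => p.2.2) h1
        simpa using this
      subst h2
      refine ⟨subset_rfl, ?_⟩
      intro j hj
      exact absurd (VE_hit G hG w j hj).1 h
  | some (true, m', U'), hq =>
    refine ⟨true, m', U', rfl, ?_⟩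
    simp only [rstep] at hq
    split_ifs at hq with h
    · have h1 : (true, m', upd G w U') = (b, m, U) := Option.some.inj hq
      have h2 : upd G w U' = U := by
        have := congrArg (fun p => p.2.2) h1
        simpa using this
      subst h2
      exact ⟨VE_upd_sub G w U', fun j hj => VE_upd_hit G w U' j hj⟩
    · have h1 : (false, m', upd G w U') = (b, m, U) := Option.some.inj hq
      have h2 : upd G w U' = U := by
        have := congrArg (fun p => p.2.2) h1
        simpa using this
      subst h2
      exact ⟨VE_upd_sub G w U', fun j hj => VE_upd_hit G w U' j hj⟩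

theorem visits (G : Geo) (hG : G.OK) (o : ℂ) (n : ℕ) (path : ℕ → ℂ) (N : ℕ)
    (h0 : G.r < ‖disp (path 0 - o)‖)
    (hv : ∀ j, ∃ k ≤ N, ‖disp (path k - o) - G.x j‖ ≤ G.ρ)
    (hN : rstate G o n path N ≠ none) : ∃ b m, rstate G o n path N = some (b, m, ∅) := by
  have key : ∀ M : ℕ, ∀ b m U, rstate G o n path M = some (b, m, U) → ∀ j,
      (∃ k ≤ M, ‖disp (path k - o) - G.x j‖ ≤ G.ρ) → j ∉ U := by
    intro M
    induction M with
    | zero =>
      intro b m U hU j hj
      obtain ⟨k, hk, hk2⟩ := hj
      have hk0 : k = 0 := by omega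
      subst hk0
      exact absurd h0 (VE_hit G hG _ j hk2).2.2
    | succ M ih =>
      intro b m U hU j hj
      obtain ⟨k, hk, hk2⟩ := hj
      have h1 : rstep G (disp (path (M + 1) - o)) (rstate G o n path M) = some (b, m, U) := hU
      obtain ⟨b', m', U', h2, h3, h4⟩ := VE_step G hG _ _ b m U h1
      by_cases hkM : k ≤ M
      · intro hjU
        exact ih b' m' U' h2 j ⟨k, hkM, hk2⟩ (h3 hjU)
      · have hk1 : k = M + 1 := by omega
        subst hk1
        exact h4 j hk2
  match hs : rstate G o n path N with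
  | none => exact absurd hs hN
  | some (b, m, U) =>
    refine ⟨b, m, ?_⟩
    have hU : U = ∅ := by
      apply Finset.eq_empty_of_forall_notMem
      intro j
      exact key N b m U hs j (hv j)
    rw [hU]

end Pool.Agent.helper32.EB
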